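import Pool.Agent.H91.LF.Defs

/-!
Module KAT of the board lf_modules (MP_c59857_nt): irrational frequencies on short intervals
(Katai, Daboussi). The Turan-Kubilius part is copied from Pool/Agent/H84/BF/TK.lean.
-/

set_option autoImplicit false

open Finset Filter

namespace Pool.Agent.H50.LF

open Pool.Agent.H24.MR (lam)
open Pool.Agent.H91.LF (StatementKAT)

/-! ### Liouville function -/

lemma lam_mul {m n : ℕ} (hm : m ≠ 0) (hn : n ≠ 0) : lam (m * n) = lam m * lam n := by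
  unfold lam
  rw [ArithmeticFunction.cardFactors_mul hm hn, pow_add]

lemma lam_prime {p : ℕ} (hp : p.Prime) : lam p = -1 := by
  unfold lam
  rw [ArithmeticFunction.cardFactors_apply_prime hp, pow_one]

lemma abs_lam (n : ℕ) : |lam n| = 1 := by
  unfold lam
  rw [abs_pow, abs_neg, abs_one, one_pow]

lemma norm_lam (n : ℕ) : ‖(lam n : ℂ)‖ = 1 := by
  rw [Complex.norm_real, Real.norm_eq_abs, abs_lam]

/-! ### Turan-Kubilius -/

lemma exists_primes (C : ℝ) : ∃ Pr : Finset ℕ,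
    (∀ p ∈ Pr, p.Prime) ∧ C ≤ ∑ p ∈ Pr, (1 : ℝ) / p := by
  classical
  set g : ℕ → ℝ := fun n => if n.Prime then (1 : ℝ) / n else 0 with hg
  have hns : ¬ Summable g := by
    intro hs
    apply not_summable_one_div_on_primes
    refine hs.congr ?_
    intro n
    by_cases hp : n.Prime
    · simp [hg, Set.indicator, hp]
    · simp [hg, Set.indicator, hp]
  have hg0 : ∀ n, 0 ≤ g n := by
    intro n
    simp only [hg]
    split_ifs
    · positivity
    · exact le_rfl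
  have ht := (not_summable_iff_tendsto_nat_atTop_of_nonneg hg0).1 hns
  obtain ⟨n, hn⟩ := (ht.eventually_ge_atTop C).exists
  refine ⟨(range n).filter (fun p => p.Prime), ?_, ?_⟩
  · intro p hp
    exact (mem_filter.1 hp).2
  · rw [sum_filter]
    exact hn

lemma card_mult (x p : ℕ) : ((Icc 1 x).filter (fun n => p ∣ n)).card = x / p := by
  rw [← Nat.Ioc_filter_dvd_card_eq_div x p]
  rfl

lemma card_mult_le (x p : ℕ) : (((Icc 1 x).filter (fun n => p ∣ n)).card : ℝ) ≤ (x : ℝ) / p := by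
  rw [card_mult]
  exact Nat.cast_div_le

lemma card_mult_ge (x p : ℕ) (hp : 1 ≤ p) :
    (x : ℝ) / p - 1 ≤ (((Icc 1 x).filter (fun n => p ∣ n)).card : ℝ) := by
  rw [card_mult]
  have h1 : x < (x / p + 1) * p := Nat.lt_mul_of_div_lt (Nat.lt_succ_self _) (by omega)
  have h2 : (x : ℝ) < ((x / p : ℕ) + 1) * p := by exact_mod_cast h1
  have hp' : (0 : ℝ) < p := by exact_mod_cast hp
  have h3 : (x : ℝ) / p < ((x / p : ℕ) : ℝ) + 1 := by rwa [div_lt_iff₀ hp']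
  linarith

/-- the number of primes of `Pr` dividing `n` -/
noncomputable def om (Pr : Finset ℕ) (n : ℕ) : ℝ := ∑ p ∈ Pr, if p ∣ n then (1 : ℝ) else 0

lemma sum_om (Pr : Finset ℕ) (x : ℕ) :
    ∑ n ∈ Icc 1 x, om Pr n = ∑ p ∈ Pr, (((Icc 1 x).filter (fun n => p ∣ n)).card : ℝ) := by
  unfold om
  rw [sum_comm]
  refine sum_congr rfl fun p _ => ?_
  rw [Finset.sum_boole]

lemma sum_om_ge (Pr : Finset ℕ) (hPr : ∀ p ∈ Pr, p.Prime) (x : ℕ) :
    (x : ℝ) * (∑ p ∈ Pr, (1 : ℝ) / p) - Pr.card ≤ ∑ n ∈ Icc 1 x, om Pr n := by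
  rw [sum_om, mul_sum, card_eq_sum_ones, Nat.cast_sum, ← sum_sub_distrib]
  refine sum_le_sum fun p hp => ?_
  have := card_mult_ge x p (hPr p hp).one_lt.le
  push_cast
  rw [mul_one_div]
  exact this

lemma sum_om_sq (Pr : Finset ℕ) (hPr : ∀ p ∈ Pr, p.Prime) (x : ℕ) :
    ∑ n ∈ Icc 1 x, om Pr n ^ 2 ≤
      (x : ℝ) * (∑ p ∈ Pr, (1 : ℝ) / p) ^ 2 + (x : ℝ) * (∑ p ∈ Pr, (1 : ℝ) / p) := by
  classical
  have e1 : ∀ n, om Pr n ^ 2 =
      ∑ p ∈ Pr, ∑ q ∈ Pr, if p ∣ n ∧ q ∣ n then (1 : ℝ) else 0 := by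
    intro n
    unfold om
    rw [sq, sum_mul_sum]
    refine sum_congr rfl fun p _ => sum_congr rfl fun q _ => ?_
    by_cases h1 : p ∣ n <;> by_cases h2 : q ∣ n <;> simp [h1, h2]
  have e2 : ∑ n ∈ Icc 1 x, om Pr n ^ 2 = ∑ p ∈ Pr, ∑ q ∈ Pr,
      (((Icc 1 x).filter (fun n => p ∣ n ∧ q ∣ n)).card : ℝ) := by
    simp_rw [e1]
    rw [sum_comm]
    refine sum_congr rfl fun p _ => ?_
    rw [sum_comm]
    refine sum_congr rfl fun q _ => ?_
    rw [Finset.sum_boole]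
  have e3 : ∀ p ∈ Pr, ∑ q ∈ Pr, (((Icc 1 x).filter (fun n => p ∣ n ∧ q ∣ n)).card : ℝ) ≤
      (∑ q ∈ Pr, (x : ℝ) * ((1 : ℝ) / p * (1 / q))) + (x : ℝ) * (1 / p) := by
    intro p hp
    rw [← Finset.add_sum_erase _ _ hp, ← Finset.add_sum_erase Pr (fun q : ℕ =>
      (x : ℝ) * ((1 : ℝ) / p * (1 / q))) hp]
    have h1 : (((Icc 1 x).filter (fun n => p ∣ n ∧ p ∣ n)).card : ℝ) ≤ (x : ℝ) * (1 / p) := by
      simp only [and_self]
      rw [mul_one_div]
      exact card_mult_le x p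
    have h2 : ∑ q ∈ Pr.erase p, (((Icc 1 x).filter (fun n => p ∣ n ∧ q ∣ n)).card : ℝ) ≤
        ∑ q ∈ Pr.erase p, (x : ℝ) * ((1 : ℝ) / p * (1 / q)) := by
      refine sum_le_sum fun q hq => ?_
      have hq1 := mem_of_mem_erase hq
      have hq2 := ne_of_mem_erase hq
      have hcop : Nat.Coprime p q := (Nat.coprime_primes (hPr p hp) (hPr q hq1)).2 hq2.symm
      have e : (Icc 1 x).filter (fun n => p ∣ n ∧ q ∣ n) =
          (Icc 1 x).filter (fun n => p * q ∣ n) := by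
        refine filter_congr fun n _ => ?_
        constructor
        · rintro ⟨a, b⟩
          exact hcop.mul_dvd_of_dvd_of_dvd a b
        · intro h
          exact ⟨(dvd_mul_right p q).trans h, (dvd_mul_left q p).trans h⟩
      rw [e]
      refine (card_mult_le x (p * q)).trans (le_of_eq ?_)
      push_cast
      rw [div_mul_div_comm, one_mul, mul_one_div]
    have h3 : 0 ≤ (x : ℝ) * ((1 : ℝ) / p * (1 / p)) := by positivity
    linarith
  rw [e2]
  refine (sum_le_sum e3).trans (le_of_eq ?_)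
  rw [sum_add_distrib, ← mul_sum, sq, sum_mul_sum]
  congr 1
  rw [mul_sum]
  refine sum_congr rfl fun p _ => ?_
  rw [mul_sum]

lemma variance (Pr : Finset ℕ) (hPr : ∀ p ∈ Pr, p.Prime) (x : ℕ) (L : ℝ)
    (hL : L = ∑ p ∈ Pr, (1 : ℝ) / p) :
    ∑ n ∈ Icc 1 x, (L - om Pr n) ^ 2 ≤ (x : ℝ) * L + 2 * L * Pr.card := by
  have h1 := sum_om_sq Pr hPr x
  have h2 := sum_om_ge Pr hPr x
  rw [← hL] at h1 h2
  have hL0 : 0 ≤ L := by rw [hL]; positivity
  have e : ∑ n ∈ Icc 1 x, (L - om Pr n) ^ 2 =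
      (x : ℝ) * L ^ 2 - 2 * L * ∑ n ∈ Icc 1 x, om Pr n + ∑ n ∈ Icc 1 x, om Pr n ^ 2 := by
    have : ∀ n, (L - om Pr n) ^ 2 = L ^ 2 - 2 * L * om Pr n + om Pr n ^ 2 := fun n => by ring
    simp_rw [this]
    rw [sum_add_distrib, sum_sub_distrib, ← mul_sum]
    simp
  rw [e]
  nlinarith [mul_le_mul_of_nonneg_left h2 hL0]

/-! ### The character `e(x)` -/

/-- `e(x) = exp (2 pi i x)` -/
noncomputable def ee (x : ℝ) : ℂ := Complex.exp (2 * Real.pi * Complex.I * x)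

lemma ee_eq (x : ℝ) : ee x = Complex.exp (((2 * Real.pi * x : ℝ) : ℂ) * Complex.I) := by
  unfold ee
  congr 1
  push_cast
  ring

lemma norm_ee (x : ℝ) : ‖ee x‖ = 1 := by
  rw [ee_eq, Complex.norm_exp_ofReal_mul_I]

lemma ee_add (x y : ℝ) : ee (x + y) = ee x * ee y := by
  unfold ee
  rw [← Complex.exp_add]
  congr 1
  push_cast
  ring

lemma ee_zero : ee 0 = 1 := by
  unfold ee
  simp

lemma conj_ee (x : ℝ) : (starRingEnd ℂ) (ee x) = ee (-x) := by
  have h1 : ee x * ee (-x) = 1 := by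
    rw [← ee_add, add_neg_cancel, ee_zero]
  have h2 : ee x * (starRingEnd ℂ) (ee x) = 1 := by
    rw [Complex.mul_conj, Complex.normSq_eq_norm_sq, norm_ee]
    norm_num
  have h3 : ee x ≠ 0 := by
    intro h
    have := norm_ee x
    rw [h] at this
    simp at this
  exact mul_left_cancel₀ h3 (h2.trans h1.symm)

lemma ee_ne_one {β : ℝ} (hβ : Irrational β) {k : ℤ} (hk : k ≠ 0) : ee (k * β) ≠ 1 := by
  intro h
  unfold ee at h
  rw [Complex.exp_eq_one_iff] at h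
  obtain ⟨n, hn⟩ := h
  have h2 : (2 * Real.pi * Complex.I : ℂ) ≠ 0 := by
    simp [Real.pi_ne_zero]
  have h3 : ((k * β : ℝ) : ℂ) = (n : ℂ) := by
    have : (2 * Real.pi * Complex.I : ℂ) * ((k * β : ℝ) : ℂ) = (2 * Real.pi * Complex.I) * n := by
      rw [hn]; ring
    exact mul_left_cancel₀ h2 this
  have h4 : (k : ℝ) * β = n := by exact_mod_cast h3
  have h5 := hβ.intCast_mul hk
  rw [h4] at h5
  exact (Int.not_irrational n) h5

/-! ### Approximate eigenfunctions -/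

/-- iterating the approximate functional equation -/
lemma iter_step (E : ℕ → ℂ) (β D : ℝ) (hD : ∀ m, ‖E (m + 1) - ee β * E m‖ ≤ D) (k m : ℕ) :
    ‖E (m + k) - ee (k * β) * E m‖ ≤ k * D := by
  induction k with
  | zero => simp [ee_zero]
  | succ k ih =>
    have h1 := hD (m + k)
    have e : E (m + (k + 1)) - ee (((k + 1 : ℕ) : ℝ) * β) * E m =
        (E (m + k + 1) - ee β * E (m + k)) + ee β * (E (m + k) - ee (k * β) * E m) := by
      have : ee (((k + 1 : ℕ) : ℝ) * β) = ee β * ee (k * β) := by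
        rw [← ee_add]
        congr 1
        push_cast
        ring
      rw [this]
      ring_nf
    rw [e]
    refine (norm_add_le _ _).trans ?_
    rw [norm_mul, norm_ee, one_mul]
    push_cast
    linarith

/-- summation by shift -/
lemma shift_sum (a : ℕ → ℂ) (z : ℂ) (A δ : ℝ) (hA : ∀ m, ‖a m‖ ≤ A)
    (hδ : ∀ m, ‖a (m + 1) - z * a m‖ ≤ δ) (M : ℕ) :
    ‖1 - z‖ * ‖∑ m ∈ Icc 1 M, a m‖ ≤ 2 * A + M * δ := by
  have e : (1 - z) * ∑ m ∈ Icc 1 M, a m =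
      (a 1 - a (M + 1)) + ∑ m ∈ Icc 1 M, (a (m + 1) - z * a m) := by
    have h0 : ∑ m ∈ Icc 1 M, (a m - a (m + 1)) = a 1 - a (M + 1) := by
      have : Icc 1 M = Ico 1 (M + 1) := by
        ext x; simp only [mem_Icc, mem_Ico]; omega
      rw [this, Finset.sum_Ico_eq_sum_range]
      have h := Finset.sum_range_sub' (fun i => a (1 + i)) (M + 1 - 1)
      simp only [add_zero] at h
      have e2 : 1 + (M + 1 - 1) = M + 1 := by omega
      rw [e2] at h
      rw [← h]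
      refine sum_congr rfl fun i _ => ?_
      rw [add_assoc]
    rw [← h0, ← sum_add_distrib, mul_sum]
    refine sum_congr rfl fun m _ => ?_
    ring
  rw [← norm_mul, e]
  refine (norm_add_le _ _).trans ?_
  have h1 : ‖a 1 - a (M + 1)‖ ≤ 2 * A := by
    refine (norm_sub_le _ _).trans ?_
    have := hA 1
    have := hA (M + 1)
    linarith
  have h2 : ‖∑ m ∈ Icc 1 M, (a (m + 1) - z * a m)‖ ≤ M * δ := by
    refine (norm_sum_le _ _).trans ?_
    refine (sum_le_sum fun m _ => hδ m).trans ?_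
    simp
  linarith

/-- the off diagonal terms -/
lemma off_diag (E : ℕ → ℂ) (β B D : ℝ) (hB0 : 0 ≤ B) (hB : ∀ m, ‖E m‖ ≤ B) (hD0 : 0 ≤ D)
    (hD : ∀ m, ‖E (m + 1) - ee β * E m‖ ≤ D) (p q M : ℕ) :
    ‖1 - ee (((p : ℤ) - q : ℤ) * β)‖ *
      ‖∑ m ∈ Icc 1 M, E (p * m) * (starRingEnd ℂ) (E (q * m))‖ ≤
      2 * B ^ 2 + M * ((p + q) * D * B) := by
  have h := shift_sum (fun m => E (p * m) * (starRingEnd ℂ) (E (q * m)))
    (ee (((p : ℤ) - q : ℤ) * β)) (B ^ 2) ((p + q) * D * B) ?_ ?_ M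
  · exact h
  · intro m
    rw [norm_mul, RCLike.norm_conj, sq]
    exact mul_le_mul (hB _) (hB _) (norm_nonneg _) hB0
  · intro m
    have e1 : ee ((((p : ℤ) - q : ℤ) : ℝ) * β) = ee (p * β) * (starRingEnd ℂ) (ee (q * β)) := by
      rw [conj_ee, ← ee_add]
      congr 1
      push_cast
      ring
    have e2 : E (p * (m + 1)) * (starRingEnd ℂ) (E (q * (m + 1))) -
        ee ((((p : ℤ) - q : ℤ) : ℝ) * β) * (E (p * m) * (starRingEnd ℂ) (E (q * m))) =
        (E (p * m + p) - ee (p * β) * E (p * m)) * (starRingEnd ℂ) (E (q * m + q)) +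
        (ee (p * β) * E (p * m)) * (starRingEnd ℂ) (E (q * m + q) - ee (q * β) * E (q * m)) := by
      rw [e1, map_sub, map_mul, mul_add, mul_add, mul_one, mul_one]
      ring
    show ‖E (p * (m + 1)) * (starRingEnd ℂ) (E (q * (m + 1))) -
        ee ((((p : ℤ) - q : ℤ) : ℝ) * β) * (E (p * m) * (starRingEnd ℂ) (E (q * m)))‖ ≤ _
    rw [e2]
    refine (norm_add_le _ _).trans ?_
    rw [norm_mul, norm_mul, norm_mul, norm_ee, one_mul, RCLike.norm_conj, RCLike.norm_conj]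
    have h1 := iter_step E β D hD p (p * m)
    have h2 := iter_step E β D hD q (q * m)
    have h3 : ‖E (p * m + p) - ee (p * β) * E (p * m)‖ * ‖E (q * m + q)‖ ≤ (p * D) * B :=
      mul_le_mul h1 (hB _) (norm_nonneg _) (by positivity)
    have h4 : ‖E (p * m)‖ * ‖E (q * m + q) - ee (q * β) * E (q * m)‖ ≤ B * (q * D) :=
      mul_le_mul (hB _) h2 (norm_nonneg _) hB0
    nlinarith

/-! ### The bilinear part -/

/-- the inner sum over the primes -/
noncomputable def GG (E : ℕ → ℂ) (Pr : Finset ℕ) (N m : ℕ) : ℂ :=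
  ∑ p ∈ Pr, if p * m ≤ N then E (p * m) else 0

lemma reindex (N p : ℕ) (hp : 1 ≤ p) (f : ℕ → ℂ) :
    ∑ n ∈ Icc 1 N, (if p ∣ n then f n else 0) =
      ∑ m ∈ Icc 1 N, (if p * m ≤ N then f (p * m) else 0) := by
  rw [← sum_filter, ← sum_filter]
  symm
  refine sum_bij (fun m _ => p * m) ?_ ?_ ?_ ?_
  · intro m hm
    simp only [mem_filter, mem_Icc] at hm ⊢
    refine ⟨⟨?_, hm.2⟩, dvd_mul_right p m⟩
    have : 1 * 1 ≤ p * m := Nat.mul_le_mul hp hm.1.1
    simpa using this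
  · intro a _ b _ h
    exact Nat.eq_of_mul_eq_mul_left hp h
  · intro n hn
    simp only [mem_filter, mem_Icc] at hn
    obtain ⟨⟨h1, h2⟩, k, rfl⟩ := hn
    refine ⟨k, ?_, rfl⟩
    simp only [mem_filter, mem_Icc]
    have hk : 1 ≤ k := by
      rcases Nat.eq_zero_or_pos k with h | h
      · subst h; simp at h1
      · exact h
    refine ⟨⟨hk, ?_⟩, h2⟩
    calc k = 1 * k := (one_mul k).symm
      _ ≤ p * k := Nat.mul_le_mul_right k hp
      _ ≤ N := h2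
  · intro m _
    rfl

lemma S2_eq (E : ℕ → ℂ) (Pr : Finset ℕ) (hPr : ∀ p ∈ Pr, p.Prime) (N : ℕ) :
    ∑ n ∈ Icc 1 N, (om Pr n : ℂ) * ((lam n : ℂ) * E n) =
      -∑ m ∈ Icc 1 N, (lam m : ℂ) * GG E Pr N m := by
  have e1 : ∀ n, (om Pr n : ℂ) * ((lam n : ℂ) * E n) =
      ∑ p ∈ Pr, if p ∣ n then (lam n : ℂ) * E n else 0 := by
    intro n
    unfold om
    push_cast
    rw [sum_mul]
    refine sum_congr rfl fun p _ => ?_
    split_ifs <;> simp
  simp_rw [e1]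
  rw [sum_comm, ← sum_neg_distrib]
  have e2 : ∀ p ∈ Pr, ∑ n ∈ Icc 1 N, (if p ∣ n then (lam n : ℂ) * E n else 0) =
      ∑ m ∈ Icc 1 N, (if p * m ≤ N then -((lam m : ℂ) * E (p * m)) else 0) := by
    intro p hp
    rw [reindex N p (hPr p hp).one_lt.le (fun n => (lam n : ℂ) * E n)]
    refine sum_congr rfl fun m hm => ?_
    have hm1 : m ≠ 0 := by
      have := (mem_Icc.1 hm).1
      omega
    rw [lam_mul (hPr p hp).ne_zero hm1, lam_prime (hPr p hp)]
    split_ifs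
    · push_cast; ring
    · rfl
  rw [sum_congr rfl e2, sum_comm]
  refine sum_congr rfl fun m _ => ?_
  unfold GG
  rw [mul_sum, ← sum_neg_distrib]
  refine sum_congr rfl fun p _ => ?_
  split_ifs
  · rfl
  · simp

lemma T_eq (E : ℕ → ℂ) (N p q : ℕ) (hp : 1 ≤ p) (_hq : 1 ≤ q) :
    ∑ m ∈ Icc 1 N, (if p * m ≤ N then E (p * m) else 0) *
      (starRingEnd ℂ) (if q * m ≤ N then E (q * m) else 0) =
      ∑ m ∈ Icc 1 (N / max p q), E (p * m) * (starRingEnd ℂ) (E (q * m)) := by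
  have e1 : ∀ m, (if p * m ≤ N then E (p * m) else 0) *
      (starRingEnd ℂ) (if q * m ≤ N then E (q * m) else 0) =
      if p * m ≤ N ∧ q * m ≤ N then E (p * m) * (starRingEnd ℂ) (E (q * m)) else 0 := by
    intro m
    by_cases h1 : p * m ≤ N <;> by_cases h2 : q * m ≤ N <;> simp [h1, h2]
  simp_rw [e1]
  rw [← sum_filter]
  refine sum_congr ?_ fun _ _ => rfl
  ext m
  simp only [mem_filter, mem_Icc]
  have hm : 1 ≤ max p q := le_trans hp (le_max_left _ _)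
  rw [Nat.le_div_iff_mul_le hm]
  constructor
  · rintro ⟨⟨h1, h2⟩, h3, h4⟩
    refine ⟨h1, ?_⟩
    rcases le_total p q with h | h
    · rw [max_eq_right h, mul_comm]; exact h4
    · rw [max_eq_left h, mul_comm]; exact h3
  · rintro ⟨h1, h2⟩
    have h3 : p * m ≤ N := by
      refine le_trans ?_ h2
      rw [mul_comm m]
      exact Nat.mul_le_mul_right m (le_max_left _ _)
    have h4 : q * m ≤ N := by
      refine le_trans ?_ h2
      rw [mul_comm m]
      exact Nat.mul_le_mul_right m (le_max_right _ _)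
    refine ⟨⟨h1, ?_⟩, h3, h4⟩
    calc m = 1 * m := (one_mul m).symm
      _ ≤ p * m := Nat.mul_le_mul_right m hp
      _ ≤ N := h3

lemma sum_GG (E : ℕ → ℂ) (β B D : ℝ) (hB0 : 0 ≤ B) (hB : ∀ m, ‖E m‖ ≤ B) (hD0 : 0 ≤ D)
    (hD : ∀ m, ‖E (m + 1) - ee β * E m‖ ≤ D) (Pr : Finset ℕ) (hPr : ∀ p ∈ Pr, p.Prime)
    (w P L : ℝ) (hw : 0 < w)
    (hw2 : ∀ p ∈ Pr, ∀ q ∈ Pr, p ≠ q → w ≤ ‖1 - ee (((p : ℤ) - q : ℤ) * β)‖)
    (hP : ∀ p ∈ Pr, (p : ℝ) ≤ P) (hP0 : 0 ≤ P) (hL : L = ∑ p ∈ Pr, (1 : ℝ) / p) (N : ℕ) :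
    ∑ m ∈ Icc 1 N, ‖GG E Pr N m‖ ^ 2 ≤
      N * B ^ 2 * L + (Pr.card : ℝ) ^ 2 * ((2 * B ^ 2 + N * (2 * P * D * B)) / w) := by
  classical
  set T : ℕ → ℕ → ℂ := fun p q =>
    ∑ m ∈ Icc 1 (N / max p q), E (p * m) * (starRingEnd ℂ) (E (q * m)) with hT
  have e1 : ((∑ m ∈ Icc 1 N, ‖GG E Pr N m‖ ^ 2 : ℝ) : ℂ) = ∑ p ∈ Pr, ∑ q ∈ Pr, T p q := by
    push_cast
    have e2 : ∀ m, ((‖GG E Pr N m‖ : ℂ)) ^ 2 = ∑ p ∈ Pr, ∑ q ∈ Pr,
        (if p * m ≤ N then E (p * m) else 0) *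
          (starRingEnd ℂ) (if q * m ≤ N then E (q * m) else 0) := by
      intro m
      have : ((‖GG E Pr N m‖ : ℂ)) ^ 2 = GG E Pr N m * (starRingEnd ℂ) (GG E Pr N m) := by
        rw [Complex.mul_conj, Complex.normSq_eq_norm_sq]
        push_cast
        rfl
      rw [this]
      unfold GG
      rw [map_sum, sum_mul_sum]
    simp_rw [e2]
    rw [sum_comm]
    refine sum_congr rfl fun p hp => ?_
    rw [sum_comm]
    refine sum_congr rfl fun q hq => ?_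
    rw [T_eq E N p q (hPr p hp).one_lt.le (hPr q hq).one_lt.le]
  have e3 : ∑ m ∈ Icc 1 N, ‖GG E Pr N m‖ ^ 2 = ‖∑ p ∈ Pr, ∑ q ∈ Pr, T p q‖ := by
    rw [← e1, Complex.norm_real, Real.norm_eq_abs, abs_of_nonneg]
    exact sum_nonneg fun _ _ => sq_nonneg _
  have hb : ∀ p ∈ Pr, ∀ q ∈ Pr, ‖T p q‖ ≤
      (if p = q then (N : ℝ) * B ^ 2 * (1 / p) else 0) +
        (2 * B ^ 2 + N * (2 * P * D * B)) / w := by
    intro p hp q hq
    have hX : 0 ≤ (2 * B ^ 2 + N * (2 * P * D * B)) / w := by positivity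
    by_cases hpq : p = q
    · subst hpq
      rw [if_pos rfl]
      have hp0 : (0 : ℝ) < p := by exact_mod_cast (hPr p hp).pos
      have h1 : ‖T p p‖ ≤ ((N / p : ℕ) : ℝ) * B ^ 2 := by
        rw [hT]
        simp only [max_self]
        refine (norm_sum_le _ _).trans ?_
        have : ∀ m ∈ Icc 1 (N / p), ‖E (p * m) * (starRingEnd ℂ) (E (p * m))‖ ≤ B ^ 2 := by
          intro m _
          rw [norm_mul, RCLike.norm_conj, sq]
          exact mul_le_mul (hB _) (hB _) (norm_nonneg _) hB0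
        refine (sum_le_sum this).trans ?_
        simp
      have h2 : ((N / p : ℕ) : ℝ) ≤ (N : ℝ) / p := Nat.cast_div_le
      have h3 : ((N / p : ℕ) : ℝ) * B ^ 2 ≤ (N : ℝ) / p * B ^ 2 :=
        mul_le_mul_of_nonneg_right h2 (sq_nonneg _)
      have h4 : (N : ℝ) * B ^ 2 * (1 / p) = (N : ℝ) / p * B ^ 2 := by ring
      linarith
    · rw [if_neg hpq, zero_add]
      have h1 := off_diag E β B D hB0 hB hD0 hD p q (N / max p q)
      have h2 := hw2 p hp q hq hpq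
      have h3 : w * ‖T p q‖ ≤ ‖1 - ee (((p : ℤ) - q : ℤ) * β)‖ * ‖T p q‖ :=
        mul_le_mul_of_nonneg_right h2 (norm_nonneg _)
      have h4 : ((N / max p q : ℕ) : ℝ) ≤ N := by
        exact_mod_cast Nat.div_le_self _ _
      have h5 : ((p : ℝ) + q) * D * B ≤ 2 * P * D * B := by
        have := hP p hp
        have := hP q hq
        have h6 : (p : ℝ) + q ≤ 2 * P := by linarith
        exact mul_le_mul_of_nonneg_right (mul_le_mul_of_nonneg_right h6 hD0) hB0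
      have h7 : ((N / max p q : ℕ) : ℝ) * (((p : ℝ) + q) * D * B) ≤ N * (2 * P * D * B) :=
        mul_le_mul h4 h5 (by positivity) (Nat.cast_nonneg _)
      rw [le_div_iff₀ hw]
      have h8 : ‖T p q‖ * w = w * ‖T p q‖ := mul_comm _ _
      rw [h8]
      exact h3.trans (h1.trans (by linarith))
  rw [e3]
  refine (norm_sum_le _ _).trans ?_
  refine (sum_le_sum fun p hp => (norm_sum_le _ _).trans (sum_le_sum fun q hq => hb p hp q hq)).trans ?_
  refine le_of_eq ?_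
  simp_rw [sum_add_distrib]
  rw [hL, mul_sum]
  congr 1
  · refine sum_congr rfl fun p hp => ?_
    rw [Finset.sum_ite_eq, if_pos hp]
  · simp only [sum_const, nsmul_eq_mul]
    ring

/-- Katai's criterion for approximate eigenfunctions with an irrational eigenvalue -/
lemma katai (β : ℝ) (hβ : Irrational β) (ε : ℝ) (hε : 0 < ε) :
    ∃ θ : ℝ, 0 < θ ∧ ∃ N₀ : ℕ, ∀ (E : ℕ → ℂ) (B D : ℝ), 0 < B → 0 ≤ D → (∀ m, ‖E m‖ ≤ B) →
      (∀ m, ‖E (m + 1) - ee β * E m‖ ≤ D) → D ≤ θ * B → ∀ N, N₀ ≤ N →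
      ‖∑ n ∈ Icc 1 N, (lam n : ℂ) * E n‖ ≤ ε * N * B := by
  classical
  obtain ⟨Pr, hPr, hLL⟩ := exists_primes (8 / ε ^ 2 + 1)
  set L : ℝ := ∑ p ∈ Pr, (1 : ℝ) / p with hL
  have h8 : 0 < 8 / ε ^ 2 := by positivity
  have hL0 : 0 < L := by linarith
  -- upper bound for the primes
  obtain ⟨P, hP0, hP⟩ : ∃ P : ℝ, 0 < P ∧ ∀ p ∈ Pr, (p : ℝ) ≤ P := by
    refine ⟨(∑ p ∈ Pr, (p : ℝ)) + 1, by positivity, ?_⟩
    intro p hp
    have h0 : ∀ i ∈ Pr, (0 : ℝ) ≤ (fun p : ℕ => (p : ℝ)) i := fun i _ => Nat.cast_nonneg i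
    have h1 : (p : ℝ) ≤ ∑ p ∈ Pr, (p : ℝ) := single_le_sum h0 hp
    linarith
  -- lower bound for the denominators
  obtain ⟨w, hw, hw2⟩ : ∃ w : ℝ, 0 < w ∧ ∀ p ∈ Pr, ∀ q ∈ Pr, p ≠ q →
      w ≤ ‖1 - ee (((p : ℤ) - q : ℤ) * β)‖ := by
    set I := (Pr ×ˢ Pr).filter (fun x => x.1 ≠ x.2) with hI
    have hpos : ∀ x ∈ I, 0 < ‖1 - ee (((x.1 : ℤ) - x.2 : ℤ) * β)‖ := by
      intro x hx
      rw [norm_pos_iff, sub_ne_zero]
      intro h
      refine ee_ne_one hβ (k := (x.1 : ℤ) - x.2) ?_ h.symm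
      intro h0
      apply (mem_filter.1 hx).2
      have : (x.1 : ℤ) = x.2 := by linarith
      exact_mod_cast this
    rcases I.eq_empty_or_nonempty with h | h
    · refine ⟨1, one_pos, ?_⟩
      intro p hp q hq hpq
      exfalso
      have : (p, q) ∈ I := by
        rw [hI]
        exact mem_filter.2 ⟨mem_product.2 ⟨hp, hq⟩, hpq⟩
      rw [h] at this
      exact absurd this (notMem_empty _)
    · obtain ⟨x, hx, hmin⟩ := exists_min_image I
        (fun x => ‖1 - ee (((x.1 : ℤ) - x.2 : ℤ) * β)‖) h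
      refine ⟨_, hpos x hx, ?_⟩
      intro p hp q hq hpq
      exact hmin (p, q) (by rw [hI]; exact mem_filter.2 ⟨mem_product.2 ⟨hp, hq⟩, hpq⟩)
  set k : ℝ := (Pr.card : ℝ) with hk
  have hk0 : 0 ≤ k := Nat.cast_nonneg _
  -- choice of the parameters
  refine ⟨L * w / (4 * P * (k ^ 2 + 1)), by positivity, ?_⟩
  obtain ⟨N₀, hN₀⟩ := exists_nat_ge (max (2 * k) (4 * k ^ 2 / (w * L)))
  refine ⟨N₀ + 1, ?_⟩
  intro E B D hB0 hD0 hB hD hDB N hN
  have hN1 : (N₀ : ℝ) + 1 ≤ N := by exact_mod_cast hN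
  have hNpos : (0 : ℝ) < N := by
    have : (0 : ℝ) ≤ N₀ := Nat.cast_nonneg _
    linarith
  have hNa : 2 * k ≤ N := by
    have := le_max_left (2 * k) (4 * k ^ 2 / (w * L))
    linarith
  have hNb : 4 * k ^ 2 / (w * L) ≤ N := by
    have := le_max_right (2 * k) (4 * k ^ 2 / (w * L))
    linarith
  -- part one
  set S1 : ℂ := ∑ n ∈ Icc 1 N, ((L - om Pr n : ℝ) : ℂ) * ((lam n : ℂ) * E n) with hS1
  set S2 : ℂ := ∑ n ∈ Icc 1 N, (om Pr n : ℂ) * ((lam n : ℂ) * E n) with hS2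
  have hsum : (L : ℂ) * ∑ n ∈ Icc 1 N, (lam n : ℂ) * E n = S1 + S2 := by
    rw [hS1, hS2, ← sum_add_distrib, mul_sum]
    refine sum_congr rfl fun n _ => ?_
    push_cast
    ring
  have hE1 : ∀ n, ‖(lam n : ℂ) * E n‖ ≤ B := by
    intro n
    rw [norm_mul, norm_lam, one_mul]
    exact hB n
  have hb1 : ‖S1‖ ^ 2 ≤ 2 * L * N ^ 2 * B ^ 2 := by
    have h1 : ‖S1‖ ≤ ∑ n ∈ Icc 1 N, |L - om Pr n| * B := by
      refine (norm_sum_le _ _).trans (sum_le_sum fun n _ => ?_)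
      rw [norm_mul, Complex.norm_real, Real.norm_eq_abs]
      exact mul_le_mul_of_nonneg_left (hE1 n) (abs_nonneg _)
    have h2 : (∑ n ∈ Icc 1 N, |L - om Pr n|) ^ 2 ≤
        (N : ℝ) * ∑ n ∈ Icc 1 N, (L - om Pr n) ^ 2 := by
      have h := sq_sum_le_card_mul_sum_sq (s := Icc 1 N) (f := fun n => |L - om Pr n|)
      simp only [sq_abs, Nat.card_Icc, Nat.add_sub_cancel] at h
      exact h
    have h3 := variance Pr hPr N L hL
    have h4 : ∑ n ∈ Icc 1 N, (L - om Pr n) ^ 2 ≤ 2 * L * N := by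
      refine h3.trans ?_
      have : 2 * L * k ≤ L * N := by nlinarith
      linarith
    rw [← sum_mul] at h1
    have h5 : ‖S1‖ ^ 2 ≤ ((∑ n ∈ Icc 1 N, |L - om Pr n|) * B) ^ 2 :=
      pow_le_pow_left₀ (norm_nonneg _) h1 2
    rw [mul_pow] at h5
    have h6 : (∑ n ∈ Icc 1 N, |L - om Pr n|) ^ 2 ≤ N * (2 * L * N) :=
      h2.trans (mul_le_mul_of_nonneg_left h4 hNpos.le)
    have h7 := mul_le_mul_of_nonneg_right h6 (sq_nonneg B)
    calc ‖S1‖ ^ 2 ≤ _ := h5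
      _ ≤ _ := h7
      _ = _ := by ring
  have hb2 : ‖S2‖ ^ 2 ≤ 2 * L * N ^ 2 * B ^ 2 := by
    have e1 : S2 = -∑ m ∈ Icc 1 N, (lam m : ℂ) * GG E Pr N m := S2_eq E Pr hPr N
    have h1 : ‖S2‖ ≤ ∑ m ∈ Icc 1 N, ‖GG E Pr N m‖ := by
      rw [e1, norm_neg]
      refine (norm_sum_le _ _).trans (le_of_eq (sum_congr rfl fun m _ => ?_))
      rw [norm_mul, norm_lam, one_mul]
    have h2 : (∑ m ∈ Icc 1 N, ‖GG E Pr N m‖) ^ 2 ≤
        (N : ℝ) * ∑ m ∈ Icc 1 N, ‖GG E Pr N m‖ ^ 2 := by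
      have h := sq_sum_le_card_mul_sum_sq (s := Icc 1 N) (f := fun m => ‖GG E Pr N m‖)
      simp only [Nat.card_Icc, Nat.add_sub_cancel] at h
      exact h
    have h3 := sum_GG E β B D hB0.le hB hD0 hD Pr hPr w P L hw hw2 hP hP0.le hL N
    have h4 : k ^ 2 * ((2 * B ^ 2 + N * (2 * P * D * B)) / w) ≤ N * B ^ 2 * L := by
      have h5 : k ^ 2 * (2 * B ^ 2 / w) ≤ N * B ^ 2 * L / 2 := by
        rw [div_le_iff₀ (by positivity)] at hNb
        have h6 : k ^ 2 * (2 * B ^ 2 / w) = (4 * k ^ 2) * (B ^ 2 / (2 * w)) := by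
          field_simp; ring
        rw [h6]
        have h7 := mul_le_mul_of_nonneg_right hNb (show 0 ≤ B ^ 2 / (2 * w) by positivity)
        refine h7.trans (le_of_eq ?_)
        field_simp
      have h8 : k ^ 2 * (N * (2 * P * D * B) / w) ≤ N * B ^ 2 * L / 2 := by
        have h9 : k ^ 2 * (N * (2 * P * D * B) / w) = (k ^ 2 * (N * (2 * P * B) / w)) * D := by
          ring
        rw [h9]
        have h10 := mul_le_mul_of_nonneg_left hDB
          (show 0 ≤ k ^ 2 * (N * (2 * P * B) / w) by positivity)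
        refine h10.trans ?_
        have h11 : k ^ 2 * (N * (2 * P * B) / w) * (L * w / (4 * P * (k ^ 2 + 1)) * B) =
            (N * B ^ 2 * L / 2) * (k ^ 2 / (k ^ 2 + 1)) := by
          field_simp; ring
        rw [h11]
        have h12 : k ^ 2 / (k ^ 2 + 1) ≤ 1 := by
          rw [div_le_one (by positivity)]
          linarith
        have h13 : 0 ≤ N * B ^ 2 * L / 2 := by positivity
        nlinarith
      have h14 : k ^ 2 * ((2 * B ^ 2 + N * (2 * P * D * B)) / w) =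
          k ^ 2 * (2 * B ^ 2 / w) + k ^ 2 * (N * (2 * P * D * B) / w) := by ring
      rw [h14]
      linarith
    have h15 : ∑ m ∈ Icc 1 N, ‖GG E Pr N m‖ ^ 2 ≤ 2 * (N * B ^ 2 * L) := by linarith
    have h16 : ‖S2‖ ^ 2 ≤ (∑ m ∈ Icc 1 N, ‖GG E Pr N m‖) ^ 2 :=
      pow_le_pow_left₀ (norm_nonneg _) h1 2
    have h17 := mul_le_mul_of_nonneg_left h15 hNpos.le
    calc ‖S2‖ ^ 2 ≤ _ := h16
      _ ≤ _ := h2
      _ ≤ _ := h17
      _ = _ := by ring
  -- conclusion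
  set X : ℝ := ‖∑ n ∈ Icc 1 N, (lam n : ℂ) * E n‖ with hX
  have hX0 : 0 ≤ X := norm_nonneg _
  have h1 : L * X ≤ ‖S1‖ + ‖S2‖ := by
    have : L * X = ‖(L : ℂ) * ∑ n ∈ Icc 1 N, (lam n : ℂ) * E n‖ := by
      rw [norm_mul, Complex.norm_real, Real.norm_eq_abs, abs_of_pos hL0]
    rw [this, hsum]
    exact norm_add_le _ _
  have h2 : (L * X) ^ 2 ≤ 8 * L * N ^ 2 * B ^ 2 := by
    have h3 : (L * X) ^ 2 ≤ (‖S1‖ + ‖S2‖) ^ 2 := pow_le_pow_left₀ (by positivity) h1 2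
    nlinarith [sq_nonneg (‖S1‖ - ‖S2‖)]
  have h3 : L * X ^ 2 ≤ 8 * N ^ 2 * B ^ 2 := by
    have h4 : L * (L * X ^ 2) ≤ L * (8 * N ^ 2 * B ^ 2) := by nlinarith
    exact le_of_mul_le_mul_left h4 hL0
  have h4 : 8 ≤ ε ^ 2 * L := by
    have h5 : 8 / ε ^ 2 ≤ L := by linarith
    rw [div_le_iff₀ (by positivity)] at h5
    linarith
  have h5 : X ^ 2 ≤ (ε * N * B) ^ 2 := by
    have h6 : L * X ^ 2 ≤ L * (ε * N * B) ^ 2 := by
      have h7 : 8 * ((N : ℝ) ^ 2 * B ^ 2) ≤ ε ^ 2 * L * ((N : ℝ) ^ 2 * B ^ 2) :=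
        mul_le_mul_of_nonneg_right h4 (by positivity)
      nlinarith
    exact le_of_mul_le_mul_left h6 hL0
  exact (pow_le_pow_iff_left₀ hX0 (by positivity) two_ne_zero).1 h5

/-! ### The short sums -/

/-- the Liouville function on the integers by the absolute value -/
noncomputable def lz (k : ℤ) : ℂ := (lam k.natAbs : ℂ)

lemma norm_lz (k : ℤ) : ‖lz k‖ = 1 := norm_lam _

/-- the correlation term -/
noncomputable def gg (β : ℝ) (y z m : ℕ) : ℂ :=
  (lam m : ℂ) * (lz ((m : ℤ) + z - y) * ee (β * ((y : ℝ) - z)))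

lemma norm_gg (β : ℝ) (y z m : ℕ) : ‖gg β y z m‖ = 1 := by
  unfold gg
  rw [norm_mul, norm_mul, norm_lam, norm_lz, norm_ee]
  norm_num

/-- the approximate eigenfunction -/
noncomputable def EE (β : ℝ) (H m : ℕ) : ℂ :=
  ∑ y ∈ range H, ∑ z ∈ range H, lz ((m : ℤ) + z - y) * ee (β * ((y : ℝ) - z))

lemma norm_EE (β : ℝ) (H m : ℕ) : ‖EE β H m‖ ≤ (H : ℝ) ^ 2 := by
  unfold EE
  refine (norm_sum_le _ _).trans ?_
  have : ∀ y ∈ range H, ‖∑ z ∈ range H, lz ((m : ℤ) + z - y) * ee (β * ((y : ℝ) - z))‖ ≤ H := by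
    intro y _
    refine (norm_sum_le _ _).trans ?_
    simp [norm_lz, norm_ee]
  refine (sum_le_sum this).trans ?_
  simp [sq]

lemma step_EE (β : ℝ) (H m : ℕ) : ‖EE β H (m + 1) - ee β * EE β H m‖ ≤ 2 * (H : ℝ) := by
  unfold EE
  rw [mul_sum, ← sum_sub_distrib]
  refine (norm_sum_le _ _).trans ?_
  have : ∀ y ∈ range H, ‖(∑ z ∈ range H, lz (((m + 1 : ℕ) : ℤ) + z - y) *
      ee (β * ((y : ℝ) - z))) - ee β * ∑ z ∈ range H, lz ((m : ℤ) + z - y) *
        ee (β * ((y : ℝ) - z))‖ ≤ 2 := by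
    intro y _
    set f : ℕ → ℂ := fun z => lz ((m : ℤ) + z - y) * ee (β * ((y : ℝ) - z)) with hf
    have e1 : ∀ z : ℕ, lz (((m + 1 : ℕ) : ℤ) + z - y) * ee (β * ((y : ℝ) - z)) =
        ee β * f (z + 1) := by
      intro z
      rw [hf]
      simp only
      have a1 : (((m + 1 : ℕ) : ℤ) + z - y) = ((m : ℤ) + ((z + 1 : ℕ) : ℤ) - y) := by
        push_cast; ring
      have a2 : ee (β * ((y : ℝ) - z)) = ee β * ee (β * ((y : ℝ) - ((z + 1 : ℕ) : ℝ))) := by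
        rw [← ee_add]
        congr 1
        push_cast
        ring
      rw [a1, a2]
      ring
    have e2 : (∑ z ∈ range H, lz (((m + 1 : ℕ) : ℤ) + z - y) * ee (β * ((y : ℝ) - z))) =
        ee β * ∑ z ∈ range H, f (z + 1) := by
      rw [mul_sum]
      exact sum_congr rfl fun z _ => e1 z
    rw [e2, ← mul_sub, ← sum_sub_distrib, Finset.sum_range_sub, norm_mul, norm_ee, one_mul]
    refine (norm_sub_le _ _).trans ?_
    have hf1 : ∀ z, ‖f z‖ = 1 := by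
      intro z
      rw [hf]
      simp only
      rw [norm_mul, norm_lz, norm_ee, one_mul]
    rw [hf1, hf1]
    norm_num
  refine (sum_le_sum this).trans ?_
  simp [mul_comm]

lemma shift_one (g : ℕ → ℂ) (hg : ∀ n, ‖g n‖ ≤ 1) (N y : ℕ) :
    ‖∑ n ∈ range N, g (n + y) - ∑ n ∈ range N, g n‖ ≤ 2 * y := by
  have e1 : ∑ n ∈ range (N + y), g n = ∑ n ∈ range N, g n + ∑ n ∈ range y, g (N + n) :=
    Finset.sum_range_add _ _ _
  have e2 : ∑ n ∈ range (y + N), g n = ∑ n ∈ range y, g n + ∑ n ∈ range N, g (y + n) :=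
    Finset.sum_range_add _ _ _
  have e3 : ∑ n ∈ range N, g (n + y) = ∑ n ∈ range N, g (y + n) :=
    sum_congr rfl fun n _ => by rw [add_comm]
  have e4 : ∑ n ∈ range N, g (n + y) - ∑ n ∈ range N, g n =
      ∑ n ∈ range y, g (N + n) - ∑ n ∈ range y, g n := by
    rw [add_comm y N, e1] at e2
    rw [e3]
    linear_combination (-1 : ℂ) * e2
  rw [e4]
  refine (norm_sub_le _ _).trans ?_
  have h1 : ‖∑ n ∈ range y, g (N + n)‖ ≤ y := by
    refine (norm_sum_le _ _).trans ((sum_le_sum fun n _ => hg _).trans ?_)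
    simp
  have h2 : ‖∑ n ∈ range y, g n‖ ≤ y := by
    refine (norm_sum_le _ _).trans ((sum_le_sum fun n _ => hg _).trans ?_)
    simp
  linarith

/-- [KAT] -/
theorem kat_main : StatementKAT := by
  intro β η hβ hη
  obtain ⟨θ, hθ, N₁, hN₁⟩ := katai β hβ (η / 2) (by positivity)
  obtain ⟨H₀, hH₀⟩ := exists_nat_ge (2 / θ)
  refine ⟨H₀ + 1, ?_⟩
  intro H hH
  have hH1 : (H₀ : ℝ) + 1 ≤ H := by exact_mod_cast hH
  have hHpos : (0 : ℝ) < H := by
    have : (0 : ℝ) ≤ H₀ := Nat.cast_nonneg _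
    linarith
  obtain ⟨N₂, hN₂⟩ := exists_nat_ge ((4 * (H : ℝ) + 4) / η)
  refine ⟨max N₁ N₂, ?_⟩
  intro N hN
  have hNa : N₁ ≤ N := le_trans (le_max_left _ _) hN
  have hNb : (N₂ : ℝ) ≤ N := by exact_mod_cast le_trans (le_max_right _ _) hN
  -- the sum of squares
  set S : ℕ → ℂ := fun n => ∑ y ∈ range H, (lam (n + y) : ℂ) * ee (β * y) with hS
  have hSeq : ∀ n, ∑ y ∈ Finset.range H, (lam (n + y) : ℂ) *
      Complex.exp (2 * Real.pi * Complex.I * (β * y)) = S n := by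
    intro n
    rw [hS]
    refine sum_congr rfl fun y _ => ?_
    unfold ee
    congr 2
    push_cast
    ring
  simp_rw [hSeq]
  have e1 : ∀ n, ((‖S n‖ : ℂ)) ^ 2 = ∑ y ∈ range H, ∑ z ∈ range H, gg β y z (n + y) := by
    intro n
    have : ((‖S n‖ : ℂ)) ^ 2 = S n * (starRingEnd ℂ) (S n) := by
      rw [Complex.mul_conj, Complex.normSq_eq_norm_sq]
      push_cast
      rfl
    rw [this, hS]
    simp only
    rw [map_sum, sum_mul_sum]
    refine sum_congr rfl fun y _ => sum_congr rfl fun z _ => ?_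
    rw [map_mul, conj_ee, Complex.conj_ofReal]
    unfold gg lz
    have a1 : (((n + y : ℕ) : ℤ) + z - y).natAbs = n + z := by
      have : (((n + y : ℕ) : ℤ) + z - y) = ((n + z : ℕ) : ℤ) := by push_cast; ring
      rw [this, Int.natAbs_natCast]
    have a2 : ee (β * ((y : ℝ) - z)) = ee (β * y) * ee (-(β * z)) := by
      rw [← ee_add]
      congr 1
      ring
    rw [a1, a2]
    ring
  have e2 : ((∑ n ∈ range N, ‖S n‖ ^ 2 : ℝ) : ℂ) =
      ∑ y ∈ range H, ∑ z ∈ range H, ∑ n ∈ range N, gg β y z (n + y) := by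
    push_cast
    simp_rw [e1]
    rw [sum_comm]
    refine sum_congr rfl fun y _ => ?_
    rw [sum_comm]
  have e3 : ∑ n ∈ Icc 1 N, (lam n : ℂ) * EE β H n =
      ∑ y ∈ range H, ∑ z ∈ range H, ∑ n ∈ range N, gg β y z (n + 1) := by
    have b1 : ∀ n, (lam n : ℂ) * EE β H n = ∑ y ∈ range H, ∑ z ∈ range H, gg β y z n := by
      intro n
      unfold EE gg
      rw [mul_sum]
      refine sum_congr rfl fun y _ => ?_
      rw [mul_sum]
    simp_rw [b1]
    rw [sum_comm]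
    refine sum_congr rfl fun y _ => ?_
    rw [sum_comm]
    refine sum_congr rfl fun z _ => ?_
    have : Icc 1 N = Ico 1 (N + 1) := by
      ext x; simp only [mem_Icc, mem_Ico]; omega
    rw [this, Finset.sum_Ico_eq_sum_range]
    simp only [Nat.add_sub_cancel]
    exact sum_congr rfl fun n _ => by rw [add_comm]
  have h1 : ‖(((∑ n ∈ range N, ‖S n‖ ^ 2 : ℝ) : ℂ)) - ∑ n ∈ Icc 1 N, (lam n : ℂ) * EE β H n‖ ≤
      (H : ℝ) ^ 2 * (2 * H + 2) := by
    rw [e2, e3, ← sum_sub_distrib]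
    refine (norm_sum_le _ _).trans ?_
    have hb : ∀ y ∈ range H, ‖(∑ z ∈ range H, ∑ n ∈ range N, gg β y z (n + y)) -
        ∑ z ∈ range H, ∑ n ∈ range N, gg β y z (n + 1)‖ ≤ H * (2 * H + 2) := by
      intro y hy
      rw [← sum_sub_distrib]
      refine (norm_sum_le _ _).trans ?_
      have hc : ∀ z ∈ range H, ‖(∑ n ∈ range N, gg β y z (n + y)) -
          ∑ n ∈ range N, gg β y z (n + 1)‖ ≤ 2 * (H : ℝ) + 2 := by
        intro z _
        have c1 := shift_one (gg β y z) (fun n => (norm_gg β y z n).le) N y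
        have c2 := shift_one (gg β y z) (fun n => (norm_gg β y z n).le) N 1
        have c3 : (y : ℝ) ≤ H := by exact_mod_cast (mem_range.1 hy).le
        have c4 : (∑ n ∈ range N, gg β y z (n + y)) - ∑ n ∈ range N, gg β y z (n + 1) =
            ((∑ n ∈ range N, gg β y z (n + y)) - ∑ n ∈ range N, gg β y z n) -
            ((∑ n ∈ range N, gg β y z (n + 1)) - ∑ n ∈ range N, gg β y z n) := by ring
        rw [c4]
        refine (norm_sub_le _ _).trans ?_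
        push_cast at c2
        linarith
      refine (sum_le_sum hc).trans (le_of_eq ?_)
      rw [sum_const, card_range, nsmul_eq_mul]
    refine (sum_le_sum hb).trans (le_of_eq ?_)
    simp only [sum_const, card_range, nsmul_eq_mul]
    ring
  have h2 := hN₁ (EE β H) ((H : ℝ) ^ 2) (2 * H) (by positivity) (by positivity)
    (norm_EE β H) (step_EE β H) ?_ N hNa
  · have h3 : ∑ n ∈ range N, ‖S n‖ ^ 2 ≤ ‖∑ n ∈ Icc 1 N, (lam n : ℂ) * EE β H n‖ +
        (H : ℝ) ^ 2 * (2 * H + 2) := by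
      have h4 : ∑ n ∈ range N, ‖S n‖ ^ 2 = ‖(((∑ n ∈ range N, ‖S n‖ ^ 2 : ℝ) : ℂ))‖ := by
        rw [Complex.norm_real, Real.norm_eq_abs, abs_of_nonneg]
        exact sum_nonneg fun _ _ => sq_nonneg _
      rw [h4]
      have h5 := norm_sub_norm_le (((∑ n ∈ range N, ‖S n‖ ^ 2 : ℝ) : ℂ))
        (∑ n ∈ Icc 1 N, (lam n : ℂ) * EE β H n)
      linarith
    have h6 : (H : ℝ) ^ 2 * (2 * H + 2) ≤ η / 2 * N * (H : ℝ) ^ 2 := by
      have h7 : (4 * (H : ℝ) + 4) / η ≤ N := hN₂.trans hNb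
      rw [div_le_iff₀ hη] at h7
      have h8 : 2 * (H : ℝ) + 2 ≤ η / 2 * N := by linarith
      have h9 := mul_le_mul_of_nonneg_left h8 (sq_nonneg (H : ℝ))
      linarith
    calc ∑ n ∈ range N, ‖S n‖ ^ 2 ≤ _ := h3
      _ ≤ η / 2 * N * (H : ℝ) ^ 2 + η / 2 * N * (H : ℝ) ^ 2 := add_le_add h2 h6
      _ = _ := by ring
  · have h7 : 2 / θ ≤ H := by linarith
    rw [div_le_iff₀ hθ] at h7
    nlinarith

end Pool.Agent.H50.LF
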